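import Pool.Agent.Helper95.LN.Stmts

/-! Row MVP: the mean value property. -/

set_option autoImplicit false

namespace Pool.Agent.Helper81.LN

open MeasureTheory Filter Pool.Agent.Helper95.PW Pool.Agent.Helper95.LN

theorem mvp_pd_smooth {g : R3 → ℝ} (hg : ContDiff ℝ (⊤ : ℕ∞) g) (i : Fin 3) :
    ContDiff ℝ (⊤ : ℕ∞) (pd i g) :=
  ((contDiff_infty_iff_fderiv.1 hg).2).clm_apply contDiff_const

theorem mvp_pd_cs {g : R3 → ℝ} (hg : HasCompactSupport g) (i : Fin 3) :
    HasCompactSupport (pd i g) :=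
  (hg.fderiv (𝕜 := ℝ)).comp_left (g := fun L : R3 →L[ℝ] ℝ => L (Pi.single i 1)) rfl

theorem mvp_abs_le (y : R3) (i : Fin 3) : |y i| ≤ nr y := by
  unfold nr
  apply Real.abs_le_sqrt
  fin_cases i
  · show y 0 ^ 2 ≤ _
    nlinarith [sq_nonneg (y 1), sq_nonneg (y 2)]
  · show y 1 ^ 2 ≤ _
    nlinarith [sq_nonneg (y 0), sq_nonneg (y 2)]
  · show y 2 ^ 2 ≤ _
    nlinarith [sq_nonneg (y 0), sq_nonneg (y 1)]

theorem mvp_nr0 (y : R3) : 0 ≤ nr y := Real.sqrt_nonneg _

theorem mvp_norm_le (y : R3) : ‖y‖ ≤ nr y :=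
  (pi_norm_le_iff_of_nonneg (mvp_nr0 y)).2 fun i => by
    rw [Real.norm_eq_abs]
    exact mvp_abs_le y i

/-- functions that vanish far from `x` have compact support -/
theorem mvp_cs {f : R3 → ℝ} (x : R3) (a : ℝ) (h : ∀ w, a < nr (w - x) → f w = 0) :
    HasCompactSupport f := by
  apply HasCompactSupport.intro (isCompact_closedBall x a)
  intro w hw
  apply h
  rw [Metric.mem_closedBall, dist_eq_norm, not_le] at hw
  exact hw.trans_le (mvp_norm_le _)

/-- Green's formula -/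
theorem mvp_green (h φ : R3 → ℝ) (hh : ContDiff ℝ (⊤ : ℕ∞) h) (hφ : ContDiff ℝ (⊤ : ℕ∞) φ)
    (hc : HasCompactSupport φ) : ∫ w, h w * lap φ w = ∫ w, lap h w * φ w := by
  have hint : ∀ u v : R3 → ℝ, ContDiff ℝ (⊤ : ℕ∞) u → ContDiff ℝ (⊤ : ℕ∞) v →
      HasCompactSupport v → Integrable (fun w => u w * v w) := fun u v hu hv hvc =>
    (hu.continuous.mul hv.continuous).integrable_of_hasCompactSupport hvc.mul_left
  have key : ∀ i, ∫ w, h w * pd i (pd i φ) w = ∫ w, pd i (pd i h) w * φ w := by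
    intro i
    have h1 : ∫ w, h w * pd i (pd i φ) w = -∫ w, pd i h w * pd i φ w :=
      integral_mul_fderiv_eq_neg_fderiv_mul_of_integrable (μ := (volume : Measure R3))
        (f := h) (g := pd i φ) (v := Pi.single i 1)
        (hint _ _ (mvp_pd_smooth hh i) (mvp_pd_smooth hφ i) (mvp_pd_cs hc i))
        (hint _ _ hh (mvp_pd_smooth (mvp_pd_smooth hφ i) i) (mvp_pd_cs (mvp_pd_cs hc i) i))
        (hint _ _ hh (mvp_pd_smooth hφ i) (mvp_pd_cs hc i))
        (fun x _ => hh.differentiable (by simp) x)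
        (fun x _ => (mvp_pd_smooth hφ i).differentiable (by simp) x)
    have h2 : ∫ w, pd i h w * pd i φ w = -∫ w, pd i (pd i h) w * φ w :=
      integral_mul_fderiv_eq_neg_fderiv_mul_of_integrable (μ := (volume : Measure R3))
        (f := pd i h) (g := φ) (v := Pi.single i 1)
        (hint _ _ (mvp_pd_smooth (mvp_pd_smooth hh i) i) hφ hc)
        (hint _ _ (mvp_pd_smooth hh i) (mvp_pd_smooth hφ i) (mvp_pd_cs hc i))
        (hint _ _ (mvp_pd_smooth hh i) hφ hc)
        (fun x _ => (mvp_pd_smooth hh i).differentiable (by simp) x)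
        (fun x _ => hφ.differentiable (by simp) x)
    rw [h1, h2, neg_neg]
  unfold lap
  simp only [Finset.mul_sum, Finset.sum_mul]
  rw [integral_finsetSum _ fun i _ => hint _ _ hh (mvp_pd_smooth (mvp_pd_smooth hφ i) i)
      (mvp_pd_cs (mvp_pd_cs hc i) i),
    integral_finsetSum _ fun i _ => hint _ _ (mvp_pd_smooth (mvp_pd_smooth hh i) i) hφ hc]
  exact Finset.sum_congr rfl fun i _ => key i

theorem mvp_pd_tr (x : R3) (f : R3 → ℝ) (i : Fin 3) :
    pd i (fun w => f (w - x)) = fun w => pd i f (w - x) := by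
  funext w
  show fderiv ℝ (fun y => f (y - x)) w (Pi.single i 1) = fderiv ℝ f (w - x) (Pi.single i 1)
  rw [fderiv_comp_sub]

theorem mvp_pd_sub {f g : R3 → ℝ} (hf : ContDiff ℝ (⊤ : ℕ∞) f) (hg : ContDiff ℝ (⊤ : ℕ∞) g)
    (i : Fin 3) : pd i (fun w => f w - g w) = fun w => pd i f w - pd i g w := by
  funext w
  show fderiv ℝ (fun y => f y - g y) w (Pi.single i 1) = _
  rw [fderiv_fun_sub (hf.differentiable (by simp) w) (hg.differentiable (by simp) w)]
  rfl

theorem mvp_lap_sub {f g : R3 → ℝ} (hf : ContDiff ℝ (⊤ : ℕ∞) f) (hg : ContDiff ℝ (⊤ : ℕ∞) g)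
    (w : R3) : lap (fun w => f w - g w) w = lap f w - lap g w := by
  unfold lap
  rw [← Finset.sum_sub_distrib]
  refine Finset.sum_congr rfl fun i _ => ?_
  rw [mvp_pd_sub hf hg, mvp_pd_sub (mvp_pd_smooth hf i) (mvp_pd_smooth hg i)]

theorem mvp_lap_tr (x : R3) (f : R3 → ℝ) (w : R3) :
    lap (fun w => f (w - x)) w = lap f (w - x) := by
  unfold lap
  refine Finset.sum_congr rfl fun i _ => ?_
  rw [mvp_pd_tr, mvp_pd_tr]

theorem mvp_tr_smooth {f : R3 → ℝ} (hf : ContDiff ℝ (⊤ : ℕ∞) f) (x : R3) :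
    ContDiff ℝ (⊤ : ℕ∞) (fun w => f (w - x)) :=
  hf.comp (contDiff_id.sub contDiff_const)

/-- integrability against `et` -/
theorem mvp_int (h3 : ST_PHC) {h : R3 → ℝ} (hh : Continuous h) (x : R3) {a : ℝ} (ha : 0 < a) :
    Integrable (fun w => h w * et a (w - x)) := by
  obtain ⟨_, _, _, h3⟩ := h3
  obtain ⟨e1, _, e3, _⟩ := h3 a ha
  apply (hh.mul (e1.continuous.comp (continuous_id.sub continuous_const))).integrable_of_hasCompactSupport
  apply HasCompactSupport.mul_left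
  exact mvp_cs x a fun w hw => e3 _ hw.le

/-- the mean of `h` over a small ball -/
theorem mvp_lim (h3 : ST_PHC) {h : R3 → ℝ} (hh : Continuous h) (x : R3) {a ε : ℝ} (ha : 0 < a)
    (hε : 0 < ε) : ∃ t : ℝ, 1 ≤ t ∧ ∫ w, h w * et (a / t) (w - x) ≤ kap * h x + ε := by
  have hkap : 0 < kap := h3.2.1
  obtain ⟨δ, hδ, hcont⟩ := Metric.continuous_iff.1 hh x (ε / kap) (by positivity)
  refine ⟨max 1 (2 * a / δ), le_max_left _ _, ?_⟩
  obtain ⟨t, ht⟩ : ∃ t : ℝ, t = max 1 (2 * a / δ) := ⟨_, rfl⟩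
  rw [← ht]
  have ht1 : 1 ≤ t := by rw [ht]; exact le_max_left _ _
  have ht2 : 2 * a / δ ≤ t := by rw [ht]; exact le_max_right _ _
  have ht0 : 0 < t := by linarith
  have hat : 0 < a / t := by positivity
  have hatδ : a / t < δ := by
    rw [div_lt_iff₀ ht0]
    rw [div_le_iff₀ hδ] at ht2
    nlinarith
  obtain ⟨_, e2, e3, _, _, e6⟩ := h3.2.2.2 (a / t) hat
  have hle : ∫ w, h w * et (a / t) (w - x) ≤ ∫ w, (h x + ε / kap) * et (a / t) (w - x) := by
    apply integral_mono (mvp_int h3 hh x hat) (mvp_int h3 continuous_const x hat)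
    intro w
    show h w * et (a / t) (w - x) ≤ (h x + ε / kap) * et (a / t) (w - x)
    by_cases hw : a / t ≤ nr (w - x)
    · rw [e3 _ hw, mul_zero, mul_zero]
    · apply mul_le_mul_of_nonneg_right _ (e2 _)
      have h1 : dist w x < δ := by
        rw [dist_eq_norm]
        exact (mvp_norm_le _).trans_lt ((not_le.1 hw).trans hatδ)
      have h2 := hcont w h1
      rw [Real.dist_eq] at h2
      have := (abs_lt.1 h2).2
      linarith
  refine hle.trans (le_of_eq ?_)
  rw [integral_const_mul]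
  have h4 : ∫ w, et (a / t) (w - x) = ∫ w, et (a / t) w :=
    integral_sub_right_eq_self (fun w => et (a / t) w) x
  rw [h4, e6]
  field_simp

/-- the inequality -/
theorem mvp_le (h1 : ST_PHA) (h2 : ST_PHB) (h3 : ST_PHC) (h : R3 → ℝ) (x : R3) (a : ℝ)
    (hh : ContDiff ℝ (⊤ : ℕ∞) h) (ha : 0 < a) (hl : ∀ w, nr (w - x) ≤ a → lap h w ≤ 0) :
    ∫ w, h w * et a (w - x) ≤ kap * h x := by
  apply le_of_forall_pos_le_add
  intro ε hε
  obtain ⟨t, ht, hlim⟩ := mvp_lim h3 hh.continuous x ha hε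
  refine le_trans ?_ hlim
  have ht0 : 0 < t := by linarith
  have hat : 0 < a / t := by positivity
  have hata : a / t ≤ a := div_le_self ha.le ht
  obtain ⟨p1, p2, p3, p4, p5⟩ := h1 a ha
  obtain ⟨q1, q2, q3, q4, q5⟩ := h1 (a / t) hat
  obtain ⟨φ, hφdef⟩ : ∃ φ : R3 → ℝ, φ = fun w => ph (a / t) (w - x) - ph a (w - x) := ⟨_, rfl⟩
  have s1 := mvp_tr_smooth p1 x
  have s2 := mvp_tr_smooth q1 x
  have hφs : ContDiff ℝ (⊤ : ℕ∞) φ := by
    rw [hφdef]
    exact s2.sub s1
  have hφ0 : ∀ w, a < nr (w - x) → φ w = 0 := by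
    intro w hw
    rw [hφdef]
    show ph (a / t) (w - x) - ph a (w - x) = 0
    rw [q2 _ (hata.trans hw.le), p2 _ hw.le, sub_self]
  have hφc : HasCompactSupport φ := mvp_cs x a hφ0
  have hφn : ∀ w, 0 ≤ φ w := by
    intro w
    rw [hφdef]
    exact sub_nonneg.2 (p5 t (w - x) ht)
  have hlap : ∀ w, lap φ w = et a (w - x) - et (a / t) (w - x) := by
    intro w
    rw [hφdef, mvp_lap_sub s2 s1, mvp_lap_tr x (ph (a / t)), mvp_lap_tr x (ph a),
      (h2 a ha).1, (h2 (a / t) hat).1]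
    ring
  have hg := mvp_green h φ hh hφs hφc
  have e : ∫ w, h w * lap φ w =
      (∫ w, h w * et a (w - x)) - ∫ w, h w * et (a / t) (w - x) := by
    rw [← integral_sub (mvp_int h3 hh.continuous x ha) (mvp_int h3 hh.continuous x hat)]
    congr 1
    funext w
    rw [hlap]
    ring
  have hneg : ∫ w, lap h w * φ w ≤ 0 := by
    apply integral_nonpos
    intro w
    show lap h w * φ w ≤ 0
    by_cases hw : nr (w - x) ≤ a
    · exact mul_nonpos_of_nonpos_of_nonneg (hl w hw) (hφn w)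
    · rw [hφ0 w (not_le.1 hw), mul_zero]
  rw [← hg, e] at hneg
  linarith

theorem MVP (h1 : ST_PHA) (h2 : ST_PHB) (h3 : ST_PHC) : ST_MVP := by
  intro h x a hh ha
  refine ⟨fun hl => ?_, fun hl => mvp_le h1 h2 h3 h x a hh ha hl⟩
  apply le_antisymm
  · exact mvp_le h1 h2 h3 h x a hh ha fun w hw => (hl w hw).le
  · have hn : ∀ w, nr (w - x) ≤ a → lap (fun w => 0 - h w) w ≤ 0 := by
      intro w hw
      rw [mvp_lap_sub contDiff_const hh, hl w hw]
      have : lap (fun _ : R3 => (0:ℝ)) w = 0 := by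
        unfold lap pd
        simp
      rw [this]
      simp
    have h4 := mvp_le h1 h2 h3 (fun w => 0 - h w) x a (contDiff_const.sub hh) ha hn
    have e : ∫ w, (0 - h w) * et a (w - x) = -∫ w, h w * et a (w - x) := by
      rw [← integral_neg]
      congr 1
      funext w
      ring
    rw [e] at h4
    linarith

end Pool.Agent.Helper81.LN
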